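import Mathlib

set_option autoImplicit false

/-!
# An infinite-dimensional Noetherian residually nilpotent Lie algebra

Over a field of characteristic `0` the positive part of the Witt algebra, with basis `e_1, e_2, ...`
and `[e_i, e_j] = (j - i) e_(i + j)`, is infinite-dimensional, residually nilpotent and satisfies the
maximal condition on subalgebras.  It is realised here on the space of polynomials, `X ^ (i - 1)`
being `e_i`.
-/

namespace Pool.Agent.Results.MP_d0ec72_al.PositiveWitt

open Polynomial

universe u

/-- The positive Witt algebra, on the space of the polynomials. -/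
def W (k : Type u) [Field k] : Type u := k[X]

variable {k : Type u} [Field k]

noncomputable instance : AddCommGroup (W k) := inferInstanceAs (AddCommGroup k[X])

noncomputable instance : Module k (W k) := inferInstanceAs (Module k k[X])

/-- the identity map -/
def toP (p : W k) : k[X] := p

/-- the identity map -/
def ofP (p : k[X]) : W k := p

/-- The bracket `X (p (X q') - q (X p')) = X^2 (p q' - q p')`. -/
noncomputable instance : Bracket (W k) (W k) :=
  ⟨fun p q => ofP (X * (toP p * (X * derivative (toP q)) - toP q * (X * derivative (toP p))))⟩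

lemma br (p q : W k) : toP ⁅p, q⁆ =
    X * (toP p * (X * derivative (toP q)) - toP q * (X * derivative (toP p))) := rfl

lemma toP_add (p q : W k) : toP (p + q) = toP p + toP q := rfl
lemma toP_sub (p q : W k) : toP (p - q) = toP p - toP q := rfl
lemma toP_zero : toP (0 : W k) = 0 := rfl
lemma toP_smul (c : k) (p : W k) : toP (c • p) = c • toP p := rfl
lemma toP_inj {p q : W k} (h : toP p = toP q) : p = q := h

noncomputable instance : LieRing (W k) where
  add_lie x y z := by
    apply toP_inj
    rw [toP_add, br, br, br, toP_add, derivative_add]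
    ring
  lie_add x y z := by
    apply toP_inj
    rw [toP_add, br, br, br, toP_add, derivative_add]
    ring
  lie_self x := by
    apply toP_inj
    rw [br, toP_zero]
    ring
  leibniz_lie x y z := by
    apply toP_inj
    rw [toP_add, br, br, br, br, br, br]
    simp only [derivative_mul, derivative_X, derivative_sub]
    ring

noncomputable instance : LieAlgebra k (W k) where
  lie_smul c x y := by
    apply toP_inj
    rw [toP_smul, br, br, toP_smul, derivative_smul]
    simp only [smul_eq_C_mul]
    ring

/-! ### The top degree of a bracket -/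

lemma natDegree_Xd (q : k[X]) : (X * derivative q).natDegree ≤ q.natDegree := by
  rcases Nat.eq_zero_or_pos q.natDegree with h | h
  · rw [eq_C_of_natDegree_eq_zero h]
    simp
  · refine natDegree_mul_le.trans ?_
    have h1 := natDegree_derivative_le q
    rw [natDegree_X]
    omega

lemma coeff_Xd (q : k[X]) (n : ℕ) : (X * derivative q).coeff n = n * q.coeff n := by
  cases n with
  | zero => simp
  | succ n =>
    rw [coeff_X_mul, coeff_derivative]
    push_cast
    ring

lemma bracket_deg [CharZero k] {p q : W k} (hp : toP p ≠ 0) (hq : toP q ≠ 0)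
    (hne : (toP p).natDegree ≠ (toP q).natDegree) :
    toP ⁅p, q⁆ ≠ 0 ∧ (toP ⁅p, q⁆).natDegree = (toP p).natDegree + (toP q).natDegree + 1 := by
  set P := toP p with hP
  set Q := toP q with hQ
  set m := P.natDegree with hm
  set n := Q.natDegree with hn
  set R := P * (X * derivative Q) - Q * (X * derivative P) with hR
  have hbr : toP ⁅p, q⁆ = X * R := br p q
  have h1 : R.natDegree ≤ m + n := by
    rw [hR]
    refine (natDegree_sub_le _ _).trans (max_le ?_ ?_)
    · exact natDegree_mul_le.trans (Nat.add_le_add le_rfl (natDegree_Xd Q))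
    · refine natDegree_mul_le.trans ?_
      rw [add_comm m n]
      exact Nat.add_le_add le_rfl (natDegree_Xd P)
  have h2 : R.coeff (m + n) = ((n : k) - m) * (P.coeff m * Q.coeff n) := by
    rw [hR, coeff_sub, coeff_mul_add_eq_of_natDegree_le le_rfl (natDegree_Xd Q), add_comm m n,
      coeff_mul_add_eq_of_natDegree_le le_rfl (natDegree_Xd P), coeff_Xd, coeff_Xd]
    ring
  have h3 : R.coeff (m + n) ≠ 0 := by
    rw [h2]
    refine mul_ne_zero ?_ (mul_ne_zero ?_ ?_)
    · rw [sub_ne_zero]
      exact_mod_cast hne.symm
    · exact leadingCoeff_ne_zero.2 hp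
    · exact leadingCoeff_ne_zero.2 hq
  have h4 : R ≠ 0 := by
    intro h
    rw [h, coeff_zero] at h3
    exact h3 rfl
  have h5 : R.natDegree = m + n := le_antisymm h1 (le_natDegree_of_ne_zero h3)
  rw [hbr]
  refine ⟨mul_ne_zero X_ne_zero h4, ?_⟩
  rw [natDegree_X_mul h4, h5]

/-! ### Sets of positive integers closed under sums of distinct elements -/

/-- closed under the sums of two distinct elements -/
def Closed (D : Set ℕ) : Prop := ∀ a ∈ D, ∀ b ∈ D, a ≠ b → a + b ∈ D

open Classical in
lemma closed_fg (D : Set ℕ) (hpos : ∀ d ∈ D, 0 < d) : ∃ F : Finset ℕ, (F : Set ℕ) ⊆ D ∧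
    ∀ E : Set ℕ, (F : Set ℕ) ⊆ E → Closed E → D ⊆ E := by
  rcases D.eq_empty_or_nonempty with h0 | h0
  · exact ⟨∅, by simp, fun E _ _ => by rw [h0]; exact Set.empty_subset _⟩
  · obtain ⟨a, haD, hamin⟩ : ∃ a ∈ D, ∀ d ∈ D, a ≤ d :=
      ⟨sInf D, Nat.sInf_mem h0, fun d hd => Nat.sInf_le hd⟩
    have ha0 := hpos a haD
    let g : ℕ → ℕ := fun r => if h : ∃ d, d ∈ D ∧ d ≠ a ∧ d % a = r then Nat.find h else a
    refine ⟨insert a ((Finset.range a).image g), ?_, ?_⟩
    · intro x hx
      rw [Finset.mem_coe, Finset.mem_insert, Finset.mem_image] at hx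
      rcases hx with rfl | ⟨r, -, rfl⟩
      · exact haD
      · simp only [g]
        split_ifs with h
        · exact (Nat.find_spec h).1
        · exact haD
    · intro E hFE hE x hx
      by_cases hxa : x = a
      · subst hxa
        exact hFE (by simp)
      · have hex : ∃ d, d ∈ D ∧ d ≠ a ∧ d % a = x % a := ⟨x, hx, hxa, rfl⟩
        set d := Nat.find hex with hd
        obtain ⟨hdD, hda, hdx⟩ := Nat.find_spec hex
        rw [← hd] at hdD hda hdx
        have hdlex : d ≤ x := Nat.find_min' hex ⟨hx, hxa, rfl⟩
        have hgd : g (x % a) = d := by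
          simp only [g]
          rw [dif_pos hex]
        have hdE : d ∈ E := by
          apply hFE
          rw [Finset.mem_coe, Finset.mem_insert, Finset.mem_image]
          exact Or.inr ⟨x % a, Finset.mem_range.2 (Nat.mod_lt _ ha0), hgd⟩
        have haE : a ∈ E := hFE (by simp)
        have hlt : a < d := lt_of_le_of_ne (hamin d hdD) (Ne.symm hda)
        have hstep : ∀ j : ℕ, d + a * j ∈ E := by
          intro j
          induction j with
          | zero => simpa using hdE
          | succ j ih =>
            have : a ≠ d + a * j := by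
              have : 0 ≤ a * j := Nat.zero_le _
              omega
            have h := hE a haE _ ih this
            rwa [show a + (d + a * j) = d + a * (j + 1) by ring] at h
        have hmod : a ∣ x - d := (Nat.modEq_iff_dvd' hdlex).1 hdx
        obtain ⟨j, hj⟩ := hmod
        have : x = d + a * j := by omega
        rw [this]
        exact hstep j

/-! ### The maximal condition -/

/-- the set of the degrees, plus one, of the non-zero elements -/
def Deg (S : Set (W k)) : Set ℕ := {d | ∃ x ∈ S, toP x ≠ 0 ∧ d = (toP x).natDegree + 1}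

lemma deg_closed [CharZero k] (M : LieSubalgebra k (W k)) : Closed (Deg (M : Set (W k))) := by
  rintro a ⟨x, hx, hx0, rfl⟩ b ⟨y, hy, hy0, rfl⟩ hab
  obtain ⟨h1, h2⟩ := bracket_deg hx0 hy0 (by omega)
  refine ⟨⁅x, y⁆, M.lie_mem hx hy, h1, ?_⟩
  rw [h2]
  ring

lemma le_of_deg (M N : LieSubalgebra k (W k)) (hNM : N ≤ M)
    (h : Deg (M : Set (W k)) ⊆ Deg (N : Set (W k))) : M ≤ N := by
  have key : ∀ d : ℕ, ∀ y : W k, y ∈ M → (toP y).natDegree < d → y ∈ N := by
    intro d
    induction d with
    | zero => intro y _ hy; omega
    | succ d ih =>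
      intro y hy hyd
      by_cases hy0 : toP y = 0
      · have : y = 0 := toP_inj hy0
        rw [this]
        exact N.zero_mem
      · obtain ⟨z, hz, hz0, hdeg⟩ := h ⟨y, hy, hy0, rfl⟩
        have hdeg' : (toP y).natDegree = (toP z).natDegree := by omega
        set c : k := (toP y).leadingCoeff / (toP z).leadingCoeff with hc
        have hzl : (toP z).leadingCoeff ≠ 0 := leadingCoeff_ne_zero.2 hz0
        have hcM : c • z ∈ N := N.smul_mem c hz
        have hsub : y - c • z ∈ N := by
          by_cases hw0 : toP (y - c • z) = 0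
          · have : y - c • z = 0 := toP_inj hw0
            rw [this]
            exact N.zero_mem
          · apply ih _ (M.sub_mem hy (hNM hcM))
            have hlt : (toP (y - c • z)).natDegree < (toP y).natDegree := by
              rw [toP_sub, toP_smul, smul_eq_C_mul]
              have hcz : c ≠ 0 := div_ne_zero (leadingCoeff_ne_zero.2 hy0) hzl
              have e1 : (C c * toP z).natDegree = (toP z).natDegree := natDegree_C_mul hcz
              have e2 : (toP y - C c * toP z).coeff (toP y).natDegree = 0 := by
                rw [coeff_sub, coeff_C_mul]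
                nth_rewrite 2 [hdeg']
                rw [coeff_natDegree, coeff_natDegree, hc]
                field_simp
                ring
              have e3 : (toP y - C c * toP z).natDegree ≤ (toP y).natDegree := by
                refine (natDegree_sub_le _ _).trans ?_
                rw [e1, hdeg']
                simp
              refine lt_of_le_of_ne e3 ?_
              intro e4
              apply hw0
              rw [toP_sub, toP_smul, smul_eq_C_mul]
              rw [← leadingCoeff_eq_zero, leadingCoeff, e4]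
              exact e2
            omega
        have : y = (y - c • z) + c • z := by abel
        rw [this]
        exact N.add_mem hsub hcM
  intro y hy
  exact key _ y hy (Nat.lt_succ_self _)

/-- the maximal condition on subalgebras -/
lemma noetherian [CharZero k] (s : ℕ → LieSubalgebra k (W k)) (hs : Monotone s) :
    ∃ n : ℕ, ∀ m : ℕ, n ≤ m → s m = s n := by
  classical
  set U : Set (W k) := ⋃ i, (s i : Set (W k)) with hU
  obtain ⟨F, hF, hgen⟩ := closed_fg (Deg U) (by
    rintro d ⟨x, _, _, rfl⟩
    omega)
  have hex : ∀ d ∈ F, ∃ i : ℕ, d ∈ Deg (s i : Set (W k)) := by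
    intro d hd
    obtain ⟨x, hx, hx0, hxd⟩ := hF hd
    rw [hU, Set.mem_iUnion] at hx
    obtain ⟨i, hi⟩ := hx
    exact ⟨i, x, hi, hx0, hxd⟩
  choose! f hf using hex
  refine ⟨F.sup f, fun m hm => le_antisymm ?_ (hs hm)⟩
  apply le_of_deg _ _ (hs hm)
  have h1 : Deg U ⊆ Deg (s (F.sup f) : Set (W k)) := by
    apply hgen
    · intro d hd
      obtain ⟨x, hx, hx0, hxd⟩ := hf d hd
      exact ⟨x, hs (Finset.le_sup hd) hx, hx0, hxd⟩
    · exact deg_closed _
  refine Set.Subset.trans ?_ h1
  rintro d ⟨x, hx, hx0, hxd⟩
  exact ⟨x, Set.mem_iUnion.2 ⟨m, hx⟩, hx0, hxd⟩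

/-! ### Residual nilpotence -/

/-- the ideal of the multiples of `X ^ n` -/
noncomputable def J (k : Type u) [Field k] (n : ℕ) : LieIdeal k (W k) where
  carrier := {p | X ^ n ∣ toP p}
  add_mem' := fun {a b} ha hb => by
    change X ^ n ∣ toP (a + b)
    rw [toP_add]
    exact dvd_add ha hb
  zero_mem' := by
    change X ^ n ∣ toP 0
    rw [toP_zero]
    exact dvd_zero _
  smul_mem' := fun c x hx => by
    change X ^ n ∣ toP (c • x)
    rw [toP_smul, smul_eq_C_mul]
    exact Dvd.dvd.mul_left hx _
  lie_mem := fun {x m} hm => by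
    change X ^ n ∣ toP ⁅x, m⁆
    rw [br]
    obtain ⟨r, hr⟩ : X ^ n ∣ toP m := hm
    rw [hr]
    have h1 : X ^ n ∣ X * derivative (X ^ n * r) := by
      rw [derivative_mul, derivative_X_pow]
      cases n with
      | zero => simp
      | succ n =>
        rw [Nat.add_sub_cancel]
        refine ⟨C ((n + 1 : ℕ) : k) * r + X * derivative r, ?_⟩
        rw [pow_succ]
        ring
    apply Dvd.dvd.mul_left
    exact dvd_sub (Dvd.dvd.mul_left h1 _) ((dvd_mul_right _ _).mul_right _)

lemma mem_J {n : ℕ} {p : W k} : p ∈ J k n ↔ X ^ n ∣ toP p := Iff.rfl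

lemma lcs_le (n : ℕ) : LieModule.lowerCentralSeries k (W k) (W k) n ≤ J k n := by
  induction n with
  | zero =>
    intro x _
    rw [mem_J, pow_zero]
    exact one_dvd _
  | succ n ih =>
    rw [LieModule.lowerCentralSeries_succ, LieSubmodule.lie_le_iff]
    intro x _ m hm
    have hm' := ih hm
    rw [mem_J] at hm' ⊢
    rw [br]
    obtain ⟨r, hr⟩ := hm'
    rw [hr]
    have h1 : X ^ n ∣ X * derivative (X ^ n * r) := by
      rw [derivative_mul, derivative_X_pow]
      cases n with
      | zero => simp
      | succ n =>
        rw [Nat.add_sub_cancel]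
        refine ⟨C ((n + 1 : ℕ) : k) * r + X * derivative r, ?_⟩
        rw [pow_succ]
        ring
    rw [pow_succ, mul_comm (X ^ n) X]
    apply mul_dvd_mul_left
    exact dvd_sub (Dvd.dvd.mul_left h1 _) ((dvd_mul_right _ _).mul_right _)

lemma quot_nilpotent (n : ℕ) : LieRing.IsNilpotent (W k ⧸ J k n) := by
  have h : LieModule.IsNilpotent (W k) (W k ⧸ J k n) := by
    rw [LieModule.isNilpotent_quotient_iff k (W k) (W k) (J k n)]
    exact ⟨n, lcs_le n⟩
  simp only [LieRing.IsNilpotent, LieModule.isNilpotent_iff k] at h ⊢
  obtain ⟨m, hm⟩ := h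
  refine ⟨m, ?_⟩
  rw [← LieSubmodule.toSubmodule_inj] at hm ⊢
  rw [coe_lowerCentralSeries_ideal_quot_eq] at hm
  exact hm

/-- Over every field of characteristic `0` there is an infinite-dimensional Lie algebra which
satisfies the maximal condition on subalgebras and is residually nilpotent. -/
theorem result (k : Type u) [Field k] [CharZero k] :
    ∃ (L : Type u) (_ : LieRing L) (_ : LieAlgebra k L),
      ¬ Module.Finite k L ∧
      (∀ s : ℕ → LieSubalgebra k L, Monotone s → ∃ n : ℕ, ∀ m : ℕ, n ≤ m → s m = s n) ∧
      (∀ x : L, x ≠ 0 → ∃ I : LieIdeal k L, x ∉ I ∧ LieRing.IsNilpotent (L ⧸ I)) := by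
  refine ⟨W k, inferInstance, inferInstance, ?_, fun s hs => noetherian s hs, fun x hx => ?_⟩
  · exact Polynomial.not_finite (R := k)
  · refine ⟨J k ((toP x).natDegree + 1), ?_, quot_nilpotent _⟩
    rw [mem_J]
    intro hd
    have h1 := natDegree_le_of_dvd hd hx
    rw [natDegree_X_pow] at h1
    omega

end Pool.Agent.Results.MP_d0ec72_al.PositiveWitt
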